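import Pool.Agent.Run7.h477.RK.Iface

/-!
# UNP: the unipotent radical is transitive
-/

set_option autoImplicit false
set_option linter.unusedSectionVars false

namespace Run7.h67.RK

open Matrix Run7.h477.RK

section
variable {K : Type} [Field K] [CharP K 2] [Finite K] {e : ℕ}

/-- a generator of the multiplicative group -/
theorem exists_gen (hK : Nat.card K = 2 ^ (2 * e)) :
    ∃ g : Kˣ, orderOf g = 2 ^ (2 * e) - 1 := by
  obtain ⟨g, hg⟩ := IsCyclic.exists_generator (α := Kˣ)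
  refine ⟨g, ?_⟩
  rw [orderOf_eq_card_of_forall_mem_zpowers hg, Nat.card_units, hK]

theorem two_pow_ge (he : 2 ≤ e) : 4 ≤ 2 ^ e := by
  calc 4 = 2 ^ 2 := by norm_num
    _ ≤ 2 ^ e := Nat.pow_le_pow_right (by norm_num) he

theorem sq_pow (e : ℕ) : 2 ^ (2 * e) = 2 ^ e * 2 ^ e := by
  rw [two_mul, pow_add]

/-- an element of `F` different from `0` and `1` -/
theorem exists_mu (hK : Nat.card K = 2 ^ (2 * e)) (he : 2 ≤ e) :
    ∃ μ : K, μ ≠ 0 ∧ μ ≠ 1 ∧ bar e μ = μ := by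
  obtain ⟨g, hg⟩ := exists_gen hK
  refine ⟨((g ^ (2 ^ e + 1) : Kˣ) : K), Units.ne_zero _, ?_, ?_⟩
  · intro h
    have h1 : g ^ (2 ^ e + 1) = 1 := Units.ext (by rw [h]; rfl)
    have h4 := two_pow_ge he
    refine pow_ne_one_of_lt_orderOf (x := g) (n := 2 ^ e + 1) (by omega) ?_ h1
    rw [hg, sq_pow]
    have : 4 * 2 ^ e ≤ 2 ^ e * 2 ^ e := Nat.mul_le_mul_right _ h4
    omega
  · rw [Units.val_pow_eq_pow_val, pow_succ']
    exact bar_norm hK (g : K)

/-- an element of `K` not in `F` -/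
theorem exists_kappa (hK : Nat.card K = 2 ^ (2 * e)) (he : 2 ≤ e) :
    ∃ κ : K, bar e κ ≠ κ := by
  obtain ⟨g, hg⟩ := exists_gen hK
  refine ⟨(g : K), ?_⟩
  intro h
  have h4 := two_pow_ge he
  have h0 : g ^ (2 ^ e) = g := Units.ext (by rw [Units.val_pow_eq_pow_val]; exact h)
  have h1 : g ^ (2 ^ e - 1) = 1 := by
    have h2 : g ^ (2 ^ e - 1) * g = 1 * g := by
      rw [← pow_succ, one_mul, Nat.sub_add_cancel (by omega), h0]
    exact mul_right_cancel h2
  refine pow_ne_one_of_lt_orderOf (x := g) (n := 2 ^ e - 1) (by omega) ?_ h1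
  rw [hg, sq_pow]
  have : 4 * 2 ^ e ≤ 2 ^ e * 2 ^ e := Nat.mul_le_mul_right _ h4
  omega

/-- the trace is surjective -/
theorem exists_trace (hK : Nat.card K = 2 ^ (2 * e)) (he : 2 ≤ e) {s : K} (hs : bar e s = s) :
    ∃ ζ : K, ζ + bar e ζ = s := by
  obtain ⟨κ, hκ⟩ := exists_kappa hK he
  have h0 : κ + bar e κ ≠ 0 := by
    intro h
    apply hκ
    have h2 := two0 (K := K)
    linear_combination h - κ * h2
  refine ⟨s * κ / (κ + bar e κ), ?_⟩
  rw [bar_div, bar_mul, bar_add, bar_bar hK, hs]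
  have h1 : bar e κ + κ = κ + bar e κ := add_comm _ _
  rw [h1]
  field_simp

/-- the action of a torus element on `x^⊥` -/
theorem tor_perp {x w : Fin 3 → K} (hx : hf e x x = 0) (hxw : hf e x w = 1)
    {g : Matrix (Fin 3) (Fin 3) K} {ν : K} (h1 : g.mulVec x = ν • x)
    (h3 : ∀ n, hf e n x = 0 → hf e n w = 0 → g.mulVec n = n) {v : Fin 3 → K}
    (hv : hf e v x = 0) : g.mulVec v = v + (hf e v w * (1 + ν)) • x := by
  have h2 := two0 (K := K)
  have hn1 : hf e (v + hf e v w • x) x = 0 := by rw [hf_add_left, hf_smul_left, hv, hx]; ring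
  have hn2 : hf e (v + hf e v w • x) w = 0 := by
    rw [hf_add_left, hf_smul_left, hxw]; linear_combination (hf e v w) * h2
  have hv' : v = (v + hf e v w • x) + hf e v w • x := by
    funext i
    simp only [Pi.add_apply, Pi.smul_apply, smul_eq_mul]
    linear_combination -(hf e v w * x i) * h2
  conv_lhs => rw [hv']
  rw [Matrix.mulVec_add, h3 _ hn1 hn2, Matrix.mulVec_smul, h1]
  funext i
  simp only [Pi.add_apply, Pi.smul_apply, smul_eq_mul]
  ring

end

theorem t_UNP (hTOR : S_TOR) : S_UNP := by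
  intro K _ _ _ e hK he x y z hx hy hz hyx hzx
  have h2 := two0 (K := K)
  obtain ⟨μ, hμ0, hμ1, hbμ⟩ := exists_mu hK he
  have hμ : (1 + μ) ≠ 0 := by
    intro h; apply hμ1; linear_combination h - h2
  have hxy : hf e x y = 1 := by rw [← hf_bar hK y x, hyx, bar_one]
  have hxz : hf e x z = 1 := by rw [← hf_bar hK z x, hzx, bar_one]
  -- the vector w
  obtain ⟨w', hw'⟩ : ∃ w' : Fin 3 → K, w' = (1 + μ)⁻¹ • (z + μ • y) := ⟨_, rfl⟩
  have hw'x : hf e w' x = 1 := by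
    rw [hw', hf_smul_left, hf_add_left, hf_smul_left, hyx, hzx, mul_one, inv_mul_cancel₀ hμ]
  have hxw' : hf e x w' = 1 := by rw [← hf_bar hK w' x, hw'x, bar_one]
  obtain ⟨ζ, hζ⟩ := exists_trace hK he (hf_bar hK w' w')
  obtain ⟨w, hw⟩ : ∃ w : Fin 3 → K, w = w' + ζ • x := ⟨_, rfl⟩
  have hww : hf e w w = 0 := by
    rw [hw, hf_add_left, hf_add_right, hf_add_right, hf_smul_left, hf_smul_right, hf_smul_right,
      hf_smul_left, hx, hw'x, hxw', ← hζ]
    linear_combination (ζ + bar e ζ) * h2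
  have hwx : hf e w x = 1 := by rw [hw, hf_add_left, hf_smul_left, hx, hw'x]; ring
  have hxw : hf e x w = 1 := by rw [← hf_bar hK w x, hwx, bar_one]
  have hwz : (1 + μ) • w = z + μ • y + ((1 + μ) * ζ) • x := by
    rw [hw, hw', smul_add, smul_smul, mul_inv_cancel₀ hμ, one_smul, smul_smul]
  -- the torus elements
  obtain ⟨ty, hty, hy1, hy2, hy3⟩ := hTOR K e hK x y hx hy hxy μ hμ0 hbμ
  obtain ⟨tw, htw, hw1, hw2, hw3⟩ := hTOR K e hK x w hx hww hxw μ hμ0 hbμ
  -- the inverse of ty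
  have hinv : ∀ v u, (ty : Matrix (Fin 3) (Fin 3) K).mulVec v = u →
      ((ty⁻¹ : (Matrix (Fin 3) (Fin 3) K)ˣ) : Matrix (Fin 3) (Fin 3) K).mulVec u = v := by
    intro v u h
    rw [← h, Matrix.mulVec_mulVec, Units.inv_mul, Matrix.one_mulVec]
  have iy1 : ((ty⁻¹ : (Matrix (Fin 3) (Fin 3) K)ˣ) : Matrix (Fin 3) (Fin 3) K).mulVec x =
      μ⁻¹ • x := by
    apply hinv
    rw [Matrix.mulVec_smul, hy1, smul_smul, inv_mul_cancel₀ hμ0, one_smul]
  have iy2 : ((ty⁻¹ : (Matrix (Fin 3) (Fin 3) K)ˣ) : Matrix (Fin 3) (Fin 3) K).mulVec y =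
      μ • y := by
    apply hinv
    rw [Matrix.mulVec_smul, hy2, smul_smul, mul_inv_cancel₀ hμ0, one_smul]
  have iy3 : ∀ n, hf e n x = 0 → hf e n y = 0 →
      ((ty⁻¹ : (Matrix (Fin 3) (Fin 3) K)ˣ) : Matrix (Fin 3) (Fin 3) K).mulVec n = n :=
    fun n h1 h2 => hinv n n (hy3 n h1 h2)
  -- g₁
  have hg1T : tw * ty⁻¹ ∈ T K e := (T K e).mul_mem htw ((T K e).inv_mem hty)
  have g1mul : ∀ v, ((tw * ty⁻¹ : (Matrix (Fin 3) (Fin 3) K)ˣ) : Matrix (Fin 3) (Fin 3) K).mulVec v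
      = (tw : Matrix (Fin 3) (Fin 3) K).mulVec
        (((ty⁻¹ : (Matrix (Fin 3) (Fin 3) K)ˣ) : Matrix (Fin 3) (Fin 3) K).mulVec v) := by
    intro v; rw [Units.val_mul, Matrix.mulVec_mulVec]
  have g1x : ((tw * ty⁻¹ : (Matrix (Fin 3) (Fin 3) K)ˣ) : Matrix (Fin 3) (Fin 3) K).mulVec x = x := by
    rw [g1mul, iy1, Matrix.mulVec_smul, hw1, smul_smul, inv_mul_cancel₀ hμ0, one_smul]
  have g1v : ∀ v, hf e v x = 0 → ∃ c : K,
      ((tw * ty⁻¹ : (Matrix (Fin 3) (Fin 3) K)ˣ) : Matrix (Fin 3) (Fin 3) K).mulVec v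
        = v + c • x := by
    intro v hv
    refine ⟨hf e v w * (1 + μ) + hf e v y * (1 + μ⁻¹) * μ, ?_⟩
    rw [g1mul, tor_perp hx hxy iy1 iy3 hv, Matrix.mulVec_add, Matrix.mulVec_smul, hw1,
      tor_perp hx hxw hw1 hw3 hv]
    module
  obtain ⟨θ, hθ⟩ : ∃ θ : K, θ = (1 + μ) * ζ + hf e y w * (1 + μ) * μ := ⟨_, rfl⟩
  have g1y : ((tw * ty⁻¹ : (Matrix (Fin 3) (Fin 3) K)ˣ) : Matrix (Fin 3) (Fin 3) K).mulVec y
      = z + θ • x := by
    have hyw : hf e (y + w) x = 0 := by rw [hf_add_left, hyx, hwx]; linear_combination h2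
    have hyw2 : hf e (y + w) w = hf e y w := by rw [hf_add_left, hww, add_zero]
    have h5 : (tw : Matrix (Fin 3) (Fin 3) K).mulVec y = (y + w) + (hf e y w * (1 + μ)) • x
        + μ⁻¹ • w := by
      have h6 : y = (y + w) + w := by
        funext i; simp only [Pi.add_apply]; linear_combination -(w i) * h2
      conv_lhs => rw [h6]
      rw [Matrix.mulVec_add, hw2, tor_perp hx hxw hw1 hw3 hyw, hyw2]
    rw [g1mul, iy2, Matrix.mulVec_smul, h5, smul_add, smul_add, smul_smul, smul_smul,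
      mul_inv_cancel₀ hμ0, one_smul]
    have h7 : μ • (y + w) + (μ * (hf e y w * (1 + μ))) • x + w =
        (1 + μ) • w + μ • y + (hf e y w * (1 + μ) * μ) • x := by module
    rw [h7, hwz, hθ]
    funext i
    simp only [Pi.add_apply, Pi.smul_apply, smul_eq_mul]
    linear_combination (μ * y i) * h2
  have hbθ : bar e θ = θ := by
    have h5 := hf_T hK hg1T y y
    rw [g1y, hy, hf_add_left, hf_add_right, hf_add_right, hf_smul_left, hf_smul_left,
      hf_smul_right, hf_smul_right, hx, hz, hzx, hxz] at h5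
    linear_combination h5 - θ * h2
  refine ⟨trU hx θ * (tw * ty⁻¹), (T K e).mul_mem (trU_mem hx hbθ) hg1T, ?_, ?_, ?_⟩
  · rw [Units.val_mul, ← Matrix.mulVec_mulVec, g1x, trU_val, tr_mulVec, hx, mul_zero, zero_smul,
      add_zero]
  · rw [Units.val_mul, ← Matrix.mulVec_mulVec, g1y, trU_val, tr_mulVec, hf_add_left, hf_smul_left,
      hx, hzx]
    funext i
    simp only [Pi.add_apply, Pi.smul_apply, smul_eq_mul]
    linear_combination (θ * x i) * h2
  · intro v hv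
    obtain ⟨c, hc⟩ := g1v v hv
    refine ⟨c, ?_⟩
    rw [Units.val_mul, ← Matrix.mulVec_mulVec, hc, trU_val, tr_mulVec, hf_add_left, hf_smul_left,
      hx, hv, mul_zero, add_zero, mul_zero, zero_smul, add_zero]

end Run7.h67.RK
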