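import Pool.Agent.Run7.h477.RK.Iface
import Pool.Agent.Run7.h67.RK.UNP

/-!
# SIM: simplicity by Iwasawa's criterion
-/

set_option autoImplicit false
set_option linter.unusedSectionVars false

namespace Run7.h67.RK

open Matrix Run7.h477.RK
open scoped Pointwise commutatorElement

section
variable {K : Type} [Field K] [CharP K 2] [Finite K] {e : ℕ}

/-- an element of norm one different from `1` -/
theorem exists_theta (hK : Nat.card K = 2 ^ (2 * e)) (he : 2 ≤ e) :
    ∃ θ : K, θ * bar e θ = 1 ∧ θ ≠ 1 := by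
  obtain ⟨g, hg⟩ := exists_gen hK
  have h4 := two_pow_ge he
  refine ⟨((g ^ (2 ^ e - 1) : Kˣ) : K), ?_, ?_⟩
  · have h1 : (g ^ (2 ^ e - 1)) ^ (2 ^ e + 1) = 1 := by
      rw [← pow_mul]
      have : (2 ^ e - 1) * (2 ^ e + 1) = 2 ^ (2 * e) - 1 := by
        rw [sq_pow]
        obtain ⟨t, ht⟩ : ∃ t, 2 ^ e = t + 1 := ⟨2 ^ e - 1, by omega⟩
        rw [ht]
        simp
        ring_nf
        omega
      rw [this, ← hg, pow_orderOf_eq_one]
    have h2 := congrArg (fun u : Kˣ => (u : K)) h1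
    simp only [Units.val_pow_eq_pow_val, Units.val_one] at h2
    rw [Units.val_pow_eq_pow_val]
    rw [pow_succ] at h2
    rw [mul_comm]
    exact h2
  · intro h
    have h1 : g ^ (2 ^ e - 1) = 1 := Units.ext (by rw [h]; rfl)
    refine pow_ne_one_of_lt_orderOf (x := g) (n := 2 ^ e - 1) (by omega) ?_ h1
    rw [hg, sq_pow]
    have : 4 * 2 ^ e ≤ 2 ^ e * 2 ^ e := Nat.mul_le_mul_right _ h4
    omega

/-- a matrix for which all isotropic vectors are eigenvectors is a scalar -/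
theorem scalar_of_fix (hK : Nat.card K = 2 ^ (2 * e)) (he : 2 ≤ e)
    (M : Matrix (Fin 3) (Fin 3) K)
    (hM : ∀ x : Fin 3 → K, x ≠ 0 → hf e x x = 0 → ∃ c : K, M.mulVec x = c • x) :
    ∃ b : K, ∀ v, M.mulVec v = b • v := by
  have h2 := two0 (K := K)
  obtain ⟨θ, hθ, hθ1⟩ := exists_theta hK he
  obtain ⟨b, hb⟩ := hM ![1, 0, 1] (fun h => one_ne_zero (congrFun h 0)) (by
    simp [hf, Fin.sum_univ_three, bar_one, bar_zero, add_self0])
  have key : ∀ φ : K, φ * bar e φ = 1 → M.mulVec ![1, φ, 0] = b • ![1, φ, 0] := by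
    intro φ hφ
    obtain ⟨d, hd⟩ := hM ![1, φ, 0] (fun h => one_ne_zero (congrFun h 0)) (by
      simp [hf, Fin.sum_univ_three, bar_one, bar_zero, hφ, add_self0])
    obtain ⟨f, hf'⟩ := hM ![0, φ, 1] (fun h => one_ne_zero (congrFun h 2)) (by
      simp [hf, Fin.sum_univ_three, bar_one, bar_zero, hφ, add_self0])
    have e1 : (![0, φ, 1] : Fin 3 → K) = ![1, φ, 0] + ![1, 0, 1] := by
      funext i
      fin_cases i <;> simp [add_self0]
    have e2 : f • (![0, φ, 1] : Fin 3 → K) = d • ![1, φ, 0] + b • ![1, 0, 1] := by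
      rw [← hf', e1, Matrix.mulVec_add, hd, hb]
    have e3 := congrFun e2 0
    simp at e3
    have e4 : d = b := by linear_combination -e3 - b * h2
    rw [hd, e4]
  have k1 := key 1 (by rw [bar_one, mul_one])
  have kθ := key θ hθ
  have hθ2 : 1 + θ ≠ 0 := by
    intro h; apply hθ1; linear_combination h - h2
  have s1 : M.mulVec (Pi.single 1 1) = b • (Pi.single 1 1 : Fin 3 → K) := by
    have e1 : (Pi.single 1 1 : Fin 3 → K) = (1 + θ)⁻¹ • (![1, 1, 0] + ![1, θ, 0]) := by
      funext i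
      fin_cases i
      · simp [add_self0]
      · simp; field_simp
      · simp
    rw [e1, Matrix.mulVec_smul, Matrix.mulVec_add, k1, kθ, smul_comm b, smul_add b]
  have s0 : M.mulVec (Pi.single 0 1) = b • (Pi.single 0 1 : Fin 3 → K) := by
    have e1 : (Pi.single 0 1 : Fin 3 → K) = ![1, 1, 0] + Pi.single 1 1 := by
      funext i
      fin_cases i
      · simp
      · simp [add_self0]
      · simp
    rw [e1, Matrix.mulVec_add, k1, s1, smul_add b]
  have s2 : M.mulVec (Pi.single 2 1) = b • (Pi.single 2 1 : Fin 3 → K) := by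
    have e1 : (Pi.single 2 1 : Fin 3 → K) = ![1, 0, 1] + Pi.single 0 1 := by
      funext i
      fin_cases i
      · simp [add_self0]
      · simp
      · simp
    rw [e1, Matrix.mulVec_add, hb, s0, smul_add b]
  refine ⟨b, fun v => ?_⟩
  have hv : v = v 0 • (Pi.single 0 1 : Fin 3 → K) + v 1 • (Pi.single 1 1 : Fin 3 → K)
      + v 2 • (Pi.single 2 1 : Fin 3 → K) := by
    funext i
    fin_cases i <;> simp
  conv_lhs => rw [hv]
  rw [Matrix.mulVec_add, Matrix.mulVec_add, Matrix.mulVec_smul, Matrix.mulVec_smul,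
    Matrix.mulVec_smul, s0, s1, s2]
  conv_rhs => rw [hv]
  module

/-- the representation on the isotropic points is faithful -/
theorem faithful (hK : Nat.card K = 2 ^ (2 * e)) (he : 2 ≤ e) (hc : Nat.Coprime 3 (2 ^ e + 1))
    (g : T K e) (hg : ∀ p, phi hK g p = p) : g = 1 := by
  obtain ⟨b, hb⟩ := scalar_of_fix hK he (g.1 : Matrix (Fin 3) (Fin 3) K) (by
    intro x h0 hx
    have h1 := hg (mkPt x h0 hx)
    rw [phi_apply, actPt_mk] at h1
    have h2 := congrArg Subtype.val h1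
    have h3 : (g.1 : Matrix (Fin 3) (Fin 3) K).mulVec x ∈ K ∙ x := by
      have : (g.1 : Matrix (Fin 3) (Fin 3) K).mulVec x ∈
          K ∙ ((g.1 : Matrix (Fin 3) (Fin 3) K).mulVec x) := Submodule.mem_span_singleton_self _
      have h4 : (K ∙ ((g.1 : Matrix (Fin 3) (Fin 3) K).mulVec x)) = K ∙ x := h2
      rwa [h4] at this
    obtain ⟨c, hc⟩ := Submodule.mem_span_singleton.1 h3
    exact ⟨c, hc.symm⟩)
  have hM : (g.1 : Matrix (Fin 3) (Fin 3) K) = b • (1 : Matrix (Fin 3) (Fin 3) K) := by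
    refine ext_mulVec fun v => ?_
    rw [hb, Matrix.smul_mulVec, Matrix.one_mulVec]
  have hdet := det_T g.2
  rw [hM, Matrix.det_smul, Matrix.det_one, mul_one, Fintype.card_fin] at hdet
  have hN : b ^ (2 ^ e + 1) = 1 := by
    have h1 := hf_T hK g.2 (Pi.single 0 1) (Pi.single 0 1)
    rw [hb, hf_smul_left, hf_smul_right, hf_single_right, Pi.single_eq_same, mul_one] at h1
    rw [pow_succ, mul_comm]
    exact h1
  have h1 : orderOf b ∣ 3 := orderOf_dvd_of_pow_eq_one hdet
  have h2 : orderOf b ∣ 2 ^ e + 1 := orderOf_dvd_of_pow_eq_one hN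
  have h3 : orderOf b = 1 := Nat.eq_one_of_dvd_coprimes hc h1 h2
  have hb1 : b = 1 := orderOf_eq_one_iff.1 h3
  apply Subtype.ext
  apply Units.ext
  rw [hM, hb1, one_smul]
  rfl

/-- a vector spanning the point `p` -/
noncomputable def rep (p : Pt K e) : Fin 3 → K := Classical.choose p.2

theorem rep_ne (p : Pt K e) : rep p ≠ 0 := (Classical.choose_spec p.2).1
theorem rep_iso (p : Pt K e) : hf e (rep p) (rep p) = 0 := (Classical.choose_spec p.2).2.1
theorem rep_span (p : Pt K e) : p.1 = K ∙ (rep p) := (Classical.choose_spec p.2).2.2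

/-- the transvections with centre `p` -/
noncomputable def RR (p : Pt K e) : Subgroup (T K e) where
  carrier := {g | ∃ c : K, bar e c = c ∧ (g.1 : Matrix (Fin 3) (Fin 3) K) = tr e (rep p) c}
  mul_mem' := by
    rintro a b ⟨c, hc, ha⟩ ⟨d, hd, hb⟩
    refine ⟨c + d, by rw [bar_add, hc, hd], ?_⟩
    rw [Subgroup.coe_mul, Units.val_mul, ha, hb, tr_mul (rep_iso p)]
  one_mem' := ⟨0, bar_zero e, by rw [tr_zero]; rfl⟩
  inv_mem' := by
    rintro a ⟨c, hc, ha⟩
    refine ⟨c, hc, ?_⟩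
    have h1 : a.1 = trU (rep_iso p) c := Units.ext ha
    rw [Subgroup.coe_inv, h1]
    rfl

theorem mem_RR {p : Pt K e} {g : T K e} :
    g ∈ RR p ↔ ∃ c : K, bar e c = c ∧ (g.1 : Matrix (Fin 3) (Fin 3) K) = tr e (rep p) c := Iff.rfl

/-- membership with any spanning vector -/
theorem mem_RR_of (hK : Nat.card K = 2 ^ (2 * e)) {p : Pt K e} {g : T K e} {x : Fin 3 → K} {c : K}
    (hx : x ∈ p.1)
    (hc : bar e c = c) (hg : (g.1 : Matrix (Fin 3) (Fin 3) K) = tr e x c) : g ∈ RR p := by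
  rw [rep_span p] at hx
  obtain ⟨μ, hμ⟩ := Submodule.mem_span_singleton.1 hx
  refine ⟨c * (μ * bar e μ), by rw [bar_mul, hc, bar_norm hK], ?_⟩
  rw [hg, ← hμ, tr_smul]

theorem mem_smul_pt (hK : Nat.card K = 2 ^ (2 * e)) (g : T K e) (p : Pt K e) {x : Fin 3 → K}
    (hx : x ∈ p.1) : (g.1 : Matrix (Fin 3) (Fin 3) K).mulVec x ∈ (phi hK g p).1 := by
  rw [phi_apply]
  show _ ∈ Submodule.map (Matrix.toLin' (g.1 : Matrix (Fin 3) (Fin 3) K)) p.1
  exact ⟨x, hx, by rw [Matrix.toLin'_apply]⟩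

theorem RR_conj (hK : Nat.card K = 2 ^ (2 * e)) (g : T K e) (p : Pt K e) {k : T K e}
    (hk : k ∈ RR p) : g * k * g⁻¹ ∈ RR (phi hK g p) := by
  obtain ⟨c, hc, hkc⟩ := hk
  refine mem_RR_of hK (x := (g.1 : Matrix (Fin 3) (Fin 3) K).mulVec (rep p)) (c := c)
    (mem_smul_pt hK g p ?_) hc ?_
  · rw [rep_span p]; exact Submodule.mem_span_singleton_self _
  · rw [← conj_tr g.1 (hf_T hK g.2), ← hkc]
    rfl

theorem RR_gen (hK : Nat.card K = 2 ^ (2 * e)) : (⨆ p : Pt K e, RR p) = ⊤ := by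
  rw [eq_top_iff]
  intro g _
  have hle : T K e ≤ (⨆ p : Pt K e, RR p).map (T K e).subtype := by
    conv_lhs => rw [T]
    rw [Subgroup.closure_le]
    rintro u ⟨x, c, hx, hc, hu⟩
    have huT : u ∈ T K e := Subgroup.subset_closure ⟨x, c, hx, hc, hu⟩
    refine ⟨⟨u, huT⟩, ?_, rfl⟩
    by_cases h0 : x = 0
    · have h1 : (⟨u, huT⟩ : T K e) = 1 := by
        apply Subtype.ext
        apply Units.ext
        show (u : Matrix (Fin 3) (Fin 3) K) = 1
        rw [hu, h0]
        refine ext_mulVec fun v => ?_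
        rw [tr_mulVec, smul_zero, add_zero, Matrix.one_mulVec]
      rw [h1]
      exact Subgroup.one_mem _
    · refine (le_iSup (fun p : Pt K e => RR p) (mkPt x h0 hx)) ?_
      refine mem_RR_of hK (x := x) (c := c) ?_ hc hu
      show x ∈ K ∙ x
      exact Submodule.mem_span_singleton_self _
  obtain ⟨g', hg', h⟩ := hle g.2
  have : g' = g := Subtype.ext h
  rwa [← this]

/-- every isotropic vector is part of a hyperbolic pair -/
theorem exists_hyp (hK : Nat.card K = 2 ^ (2 * e)) (he : 2 ≤ e) {x : Fin 3 → K} (h0 : x ≠ 0)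
    (hx : hf e x x = 0) : ∃ w, hf e w w = 0 ∧ hf e x w = 1 := by
  have h2 := two0 (K := K)
  obtain ⟨i, hi⟩ : ∃ i, x i ≠ 0 := by
    by_contra h
    push Not at h
    exact h0 (funext h)
  obtain ⟨w', hw'⟩ : ∃ w' : Fin 3 → K, w' = (bar e (x i))⁻¹ • (Pi.single i 1 : Fin 3 → K) :=
    ⟨_, rfl⟩
  have h1 : hf e w' x = 1 := by
    rw [hw', hf_smul_left, hf_single_left, inv_mul_cancel₀ (bar_ne_zero hi)]
  have h1' : hf e x w' = 1 := by rw [← hf_bar hK w' x, h1, bar_one]
  obtain ⟨ζ, hζ⟩ := exists_trace hK he (hf_bar hK w' w')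
  refine ⟨w' + ζ • x, ?_, ?_⟩
  · rw [hf_add_left, hf_add_right, hf_add_right, hf_smul_left, hf_smul_right, hf_smul_right,
      hf_smul_left, hx, h1, h1', ← hζ]
    linear_combination (ζ + bar e ζ) * h2
  · rw [hf_add_right, hf_smul_right, hx, h1', mul_zero, add_zero]

/-- `T K e` is perfect -/
theorem RR_le_comm (hTOR : S_TOR) (hK : Nat.card K = 2 ^ (2 * e)) (he : 2 ≤ e) (p : Pt K e) :
    RR p ≤ commutator (T K e) := by
  have h2 := two0 (K := K)
  obtain ⟨μ, hμ0, hμ1, hbμ⟩ := exists_mu hK he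
  have hμ : (1 + μ) ≠ 0 := by
    intro h; apply hμ1; linear_combination h - h2
  obtain ⟨w, hw, hxw⟩ := exists_hyp hK he (rep_ne p) (rep_iso p)
  obtain ⟨g, hgT, hg1, -, -⟩ := hTOR K e hK (rep p) w (rep_iso p) hw hxw μ hμ0 hbμ
  rintro k ⟨c, hc, hk⟩
  obtain ⟨c', hc'⟩ : ∃ c' : K, c' = c / (1 + μ) ^ 2 := ⟨_, rfl⟩
  have hbc' : bar e c' = c' := by
    rw [hc', bar_div, bar_pow, bar_add, bar_one, hbμ, hc]
  let t : T K e := ⟨trU (rep_iso p) c', trU_mem (rep_iso p) hbc'⟩
  let g' : T K e := ⟨g, hgT⟩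
  have hcomm : ⁅g', t⁆ = k := by
    apply Subtype.ext
    apply Units.ext
    show ((g * trU (rep_iso p) c' * g⁻¹ * (trU (rep_iso p) c')⁻¹ : (Matrix (Fin 3) (Fin 3) K)ˣ) :
      Matrix (Fin 3) (Fin 3) K) = (k.1 : Matrix (Fin 3) (Fin 3) K)
    have hinv : (trU (rep_iso p) c')⁻¹ = trU (rep_iso p) c' := Units.ext rfl
    rw [hinv, Units.val_mul, Units.val_mul, Units.val_mul, trU_val,
      conj_tr g (hf_T hK hgT), hg1, tr_smul, tr_mul (rep_iso p), hk, hbμ, hc']
    congr 1
    have h3 : (1 + μ) ^ 2 = 1 + μ * μ := by linear_combination μ * h2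
    have h4 : (1 + μ * μ) ≠ 0 := by rw [← h3]; exact pow_ne_zero 2 hμ
    rw [h3]
    have h5 : c / (1 + μ * μ) * (μ * μ) + c / (1 + μ * μ) = c / (1 + μ * μ) * (1 + μ * μ) := by
      ring
    rw [h5, div_mul_cancel₀ _ h4]
  rw [← hcomm]
  exact Subgroup.commutator_mem_commutator (Subgroup.mem_top _) (Subgroup.mem_top _)

end

theorem t_SIM' (hTOR : S_TOR) : S_SIM := by
  intro K _ _ _ e hK he hc h2t
  let _ : MulAction (T K e) (Pt K e) := MulAction.compHom (Pt K e) (phi hK)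
  have hsmul : ∀ (g : T K e) (p : Pt K e), g • p = phi hK g p := fun _ _ => rfl
  have hmp : MulAction.IsMultiplyPretransitive (T K e) (Pt K e) 2 := by
    rw [MulAction.is_two_pretransitive_iff]
    intro a b c d hab hcd
    exact h2t a b c d hab hcd
  have hpr : MulAction.IsPreprimitive (T K e) (Pt K e) :=
    MulAction.isPreprimitive_of_is_two_pretransitive hmp
  let IwaS : MulAction.IwasawaStructure (T K e) (Pt K e) :=
    { T := RR
      is_comm := by
        intro p
        refine ⟨⟨?_⟩⟩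
        rintro ⟨a, c, hc, ha⟩ ⟨b, d, hd, hb⟩
        apply Subtype.ext
        apply Subtype.ext
        apply Units.ext
        show (a.1 : Matrix (Fin 3) (Fin 3) K) * (b.1 : Matrix (Fin 3) (Fin 3) K) =
          (b.1 : Matrix (Fin 3) (Fin 3) K) * (a.1 : Matrix (Fin 3) (Fin 3) K)
        rw [ha, hb, tr_mul (rep_iso p), tr_mul (rep_iso p), add_comm]
      is_conj := by
        intro g p
        ext k
        rw [Subgroup.mem_pointwise_smul_iff_inv_smul_mem, ← map_inv, MulAut.smul_def,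
          MulAut.conj_apply, inv_inv]
        constructor
        · intro h
          have h1 := RR_conj hK g⁻¹ (g • p) h
          rw [← hsmul, inv_smul_smul, inv_inv] at h1
          exact h1
        · intro h
          have h1 := RR_conj hK g p h
          have h3 : g * (g⁻¹ * k * g) * g⁻¹ = k := by group
          rw [h3] at h1
          exact h1
      is_generator := RR_gen hK }
  have hperf : commutator (T K e) = ⊤ := by
    rw [eq_top_iff, ← RR_gen hK]
    exact iSup_le fun p => RR_le_comm hTOR hK he p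
  have hfaith : FaithfulSMul (T K e) (Pt K e) := by
    constructor
    intro a b hab
    have h1 : a⁻¹ * b = 1 := by
      apply faithful hK he hc
      intro p
      rw [← hsmul, mul_smul, ← hab p, inv_smul_smul]
    calc a = a * 1 := (mul_one a).symm
      _ = a * (a⁻¹ * b) := by rw [h1]
      _ = b := by group
  have hx : hf e (![1, 1, 0] : Fin 3 → K) ![1, 1, 0] = 0 := by
    simp [hf, Fin.sum_univ_three, bar_one, bar_zero, add_self0]
  have hnt : Nontrivial (T K e) := by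
    refine ⟨⟨trU hx 1, trU_mem hx (bar_one e)⟩, 1, ?_⟩
    intro h
    have h1 := congrArg (fun g : T K e =>
      (g.1 : Matrix (Fin 3) (Fin 3) K).mulVec (Pi.single 0 1) 1) h
    have h3 : (tr e (![1, 1, 0] : Fin 3 → K) 1).mulVec (Pi.single 0 1) 1 = 1 := by
      rw [tr_mulVec, hf_single_left]
      simp [bar_one]
    have h4 : ((((1 : T K e).1 : (Matrix (Fin 3) (Fin 3) K)ˣ)) : Matrix (Fin 3) (Fin 3) K).mulVec
        (Pi.single 0 1) 1 = 0 := by
      show ((1 : Matrix (Fin 3) (Fin 3) K)).mulVec (Pi.single 0 1) 1 = 0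
      rw [Matrix.one_mulVec]
      simp
    have h5 : (1 : K) = 0 := h3.symm.trans (h1.trans h4)
    exact one_ne_zero h5
  exact IwaS.isSimpleGroup hperf hfaith

theorem t_SIM (_ : S_PL) (_ : S_TRA) (hTOR : S_TOR) : S_SIM := t_SIM' hTOR

end Run7.h67.RK
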