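import Pool.Agent.Run7.h477.RK.Iface

/-!
# TOR: torus elements of hyperbolic pairs
-/

set_option autoImplicit false
set_option linter.unusedSectionVars false

namespace Run7.h67.RK

open Matrix Run7.h477.RK

section
variable {K : Type} [Field K] [CharP K 2] [Finite K] {e : ℕ}

/-- the Weyl element `w(μ) = tr x μ * tr w μ⁻¹ * tr x μ` -/
def wU {x w : Fin 3 → K} (hx : hf e x x = 0) (hw : hf e w w = 0) (μ : K) :
    (Matrix (Fin 3) (Fin 3) K)ˣ := trU hx μ * trU hw μ⁻¹ * trU hx μ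

theorem wU_mem {x w : Fin 3 → K} (hx : hf e x x = 0) (hw : hf e w w = 0) {μ : K}
    (hμ : bar e μ = μ) : wU hx hw μ ∈ T K e :=
  (T K e).mul_mem ((T K e).mul_mem (trU_mem hx hμ) (trU_mem hw (by rw [bar_inv, hμ])))
    (trU_mem hx hμ)

theorem wU_mulVec {x w : Fin 3 → K} (hx : hf e x x = 0) (hw : hf e w w = 0) (μ : K)
    (v : Fin 3 → K) : ((wU hx hw μ : (Matrix (Fin 3) (Fin 3) K)ˣ) :
      Matrix (Fin 3) (Fin 3) K).mulVec v =
      (tr e x μ).mulVec ((tr e w μ⁻¹).mulVec ((tr e x μ).mulVec v)) := by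
  rw [wU, Units.val_mul, Units.val_mul, trU_val, trU_val, ← Matrix.mulVec_mulVec,
    ← Matrix.mulVec_mulVec]

theorem wU_x {x w : Fin 3 → K} (hx : hf e x x = 0) (hw : hf e w w = 0) (hxw : hf e x w = 1)
    (hwx : hf e w x = 1) {μ : K} (hμ : μ ≠ 0) :
    ((wU hx hw μ : (Matrix (Fin 3) (Fin 3) K)ˣ) : Matrix (Fin 3) (Fin 3) K).mulVec x =
      μ⁻¹ • w := by
  rw [wU_mulVec, tr_mulVec e x μ x, hx, mul_zero, zero_smul, add_zero, tr_mulVec e w μ⁻¹ x, hxw,
    mul_one, tr_mulVec,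
    hf_add_left, hx, hf_smul_left, hwx, mul_one, zero_add, mul_inv_cancel₀ hμ, one_smul,
    add_comm x, add_assoc]
  have : x + x = 0 := by funext i; simp [add_self0]
  rw [this, add_zero]

theorem wU_w {x w : Fin 3 → K} (hx : hf e x x = 0) (hw : hf e w w = 0) (hxw : hf e x w = 1)
    (hwx : hf e w x = 1) {μ : K} (hμ : μ ≠ 0) :
    ((wU hx hw μ : (Matrix (Fin 3) (Fin 3) K)ˣ) : Matrix (Fin 3) (Fin 3) K).mulVec w =
      μ • x := by
  have hww : w + w = 0 := by funext i; simp [add_self0]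
  rw [wU_mulVec, tr_mulVec e x μ w, hwx, mul_one, tr_mulVec e w μ⁻¹, hf_add_left, hw,
    hf_smul_left, hxw, mul_one,
    zero_add, inv_mul_cancel₀ hμ, one_smul, add_comm w, add_assoc, hww, add_zero, tr_mulVec,
    hf_smul_left, hx, mul_zero, mul_zero, zero_smul, add_zero]

theorem wU_n {x w : Fin 3 → K} (hx : hf e x x = 0) (hw : hf e w w = 0) (μ : K) {n : Fin 3 → K}
    (hnx : hf e n x = 0) (hnw : hf e n w = 0) :
    ((wU hx hw μ : (Matrix (Fin 3) (Fin 3) K)ˣ) : Matrix (Fin 3) (Fin 3) K).mulVec n = n := by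
  rw [wU_mulVec, tr_mulVec e x μ n, hnx, mul_zero, zero_smul, add_zero, tr_mulVec e w μ⁻¹ n, hnw,
    mul_zero, zero_smul, add_zero, tr_mulVec, hnx, mul_zero, zero_smul, add_zero]

end

theorem t_TOR : S_TOR := by
  intro K _ _ _ e hK x w hx hw hxw μ hμ hbμ
  have hwx : hf e w x = 1 := by rw [← hf_bar hK x w, hxw, bar_one]
  refine ⟨wU hx hw μ * wU hx hw 1, (T K e).mul_mem (wU_mem hx hw hbμ) (wU_mem hx hw (bar_one e)),
    ?_, ?_, ?_⟩
  · rw [Units.val_mul, ← Matrix.mulVec_mulVec, wU_x hx hw hxw hwx one_ne_zero, inv_one, one_smul,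
      wU_w hx hw hxw hwx hμ]
  · rw [Units.val_mul, ← Matrix.mulVec_mulVec, wU_w hx hw hxw hwx one_ne_zero, one_smul,
      wU_x hx hw hxw hwx hμ]
  · intro n hnx hnw
    rw [Units.val_mul, ← Matrix.mulVec_mulVec, wU_n hx hw 1 hnx hnw, wU_n hx hw μ hnx hnw]

end Run7.h67.RK
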